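import Pool.Agent.Helper82.SG.St

/-!
# Project SG, module CORE: the core inequality for cut trees
-/

set_option autoImplicit false

namespace Pool.Agent.Helper32.SG

open Finset Real MeasureTheory Pool.Agent.Helper77.Steiner Pool.Agent.Helper82.SG
open Pool.Agent.Helper18.GP (nlen NConn)
open scoped ENNReal

private lemma nlen_flatMap {X : Type} (d : X → X → ℝ) (L : List ℕ) (g : ℕ → List (X × X)) :
    nlen d (L.flatMap g) = (L.map fun j => nlen d (g j)).sum := by
  induction L with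
  | nil => simp [nlen]
  | cons j L ih =>
    rw [List.flatMap_cons, List.map_cons, List.sum_cons, ← ih]
    simp [nlen]

private lemma conn_mono {X : Type} {m m' : List (X × X)} (h : ∀ e ∈ m, e ∈ m') {p q : X}
    (hpq : Relation.EqvGen (fun x y => (x, y) ∈ m) p q) :
    Relation.EqvGen (fun x y => (x, y) ∈ m') p q :=
  hpq.mono fun _ _ hab => h _ hab

private lemma asp {E : Type} [MetricSpace E] {B : Finset E} {z : E} {H K : ℝ}
    (h1 : ∀ p ∈ B, dist p z ≤ 2 * exp K * H)
    (h2 : ∀ p ∈ B, ∀ q ∈ B, p ≠ q → exp (-2 * K) * H ≤ dist p q) :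
    Asp B (4 * exp (3 * K)) := by
  intro p hp q hq u hu v hv huv
  have h3 := h1 p hp
  have h4 := h1 q hq
  have h5 := h2 u hu v hv huv
  have h6 : dist p q ≤ dist p z + dist q z := dist_triangle_right p q z
  have h7 : exp (3 * K) * exp (-2 * K) = exp K := by
    rw [← exp_add]
    ring_nf
  have h8 : 4 * exp (3 * K) * (exp (-2 * K) * H) ≤ 4 * exp (3 * K) * dist u v :=
    mul_le_mul_of_nonneg_left h5 (by positivity)
  have h9 : 4 * exp (3 * K) * (exp (-2 * K) * H) = 4 * (exp K * H) := by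
    rw [← h7]
    ring
  rw [h9] at h8
  linarith

open Classical in
private lemma sum_bound (n : ℕ) (par top : ℕ → ℕ) (cut : ℕ → Prop) (d w : ℕ → ℝ)
    (hd : ∀ i, 0 ≤ d i) (hw : ∀ i, 0 ≤ w i) (hp : ∀ i, 1 ≤ i → i ≤ n → par i < i)
    (ht : ∀ i ≤ n, top i ≤ i ∧ top (top i) = top i) :
    ∑ j ∈ (range (n + 1)).filter (fun j => top j = j),
      (∑ i ∈ (Icc 1 n).filter (fun i => ¬ cut i ∧ top i = j), d i +
      ∑ i ∈ (Icc 1 n).filter (fun i => cut i ∧ top (par i) = j), 2 * w i +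
      if 1 ≤ j ∧ cut j then d j + 2 * w j else 0) ≤
    ∑ i ∈ Icc 1 n, d i + 4 * ∑ i ∈ (Icc 1 n).filter (fun i => cut i), w i := by
  rw [sum_add_distrib, sum_add_distrib]
  have e1 : ∑ j ∈ (range (n + 1)).filter (fun j => top j = j),
      ∑ i ∈ (Icc 1 n).filter (fun i => ¬ cut i ∧ top i = j), d i =
      ∑ i ∈ (Icc 1 n).filter (fun i => ¬ cut i), d i := by
    rw [← sum_fiberwise_of_maps_to (s := (Icc 1 n).filter (fun i => ¬ cut i))
      (t := (range (n + 1)).filter (fun j => top j = j)) (g := top)]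
    · refine sum_congr rfl fun j _ => ?_
      rw [filter_filter]
    · intro i hi
      rw [mem_filter, mem_Icc] at hi
      rw [mem_filter, mem_range]
      obtain ⟨h1, h2⟩ := ht i hi.1.2
      exact ⟨by omega, h2⟩
  have e2 : ∑ j ∈ (range (n + 1)).filter (fun j => top j = j),
      ∑ i ∈ (Icc 1 n).filter (fun i => cut i ∧ top (par i) = j), 2 * w i =
      ∑ i ∈ (Icc 1 n).filter (fun i => cut i), 2 * w i := by
    rw [← sum_fiberwise_of_maps_to (s := (Icc 1 n).filter (fun i => cut i))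
      (t := (range (n + 1)).filter (fun j => top j = j)) (g := fun i => top (par i))]
    · refine sum_congr rfl fun j _ => ?_
      rw [filter_filter]
    · intro i hi
      rw [mem_filter, mem_Icc] at hi
      rw [mem_filter, mem_range]
      have h0 := hp i hi.1.1 hi.1.2
      obtain ⟨h1, h2⟩ := ht (par i) (by omega)
      exact ⟨by omega, h2⟩
  have e3 : ∑ j ∈ (range (n + 1)).filter (fun j => top j = j),
      (if 1 ≤ j ∧ cut j then d j + 2 * w j else 0) ≤
      ∑ i ∈ (Icc 1 n).filter (fun i => cut i), (d i + 2 * w i) := by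
    rw [← sum_filter, filter_filter]
    refine sum_le_sum_of_subset_of_nonneg ?_ ?_
    · intro j hj
      rw [mem_filter, mem_range] at hj
      rw [mem_filter, mem_Icc]
      exact ⟨⟨hj.2.2.1, by omega⟩, hj.2.2.2⟩
    · intro i _ _
      have h1 := hd i
      have h2 := hw i
      linarith
  have e4 : ∑ i ∈ (Icc 1 n).filter (fun i => cut i), d i +
      ∑ i ∈ (Icc 1 n).filter (fun i => ¬ cut i), d i = ∑ i ∈ Icc 1 n, d i :=
    sum_filter_add_sum_filter_not _ _ _
  rw [e1, e2]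
  rw [sum_add_distrib, ← mul_sum] at e3
  rw [← mul_sum]
  linarith

theorem hCORE (hGEO : StGEO) (hCHO : StCHO) (hPNE : StPNE) (hMST : StMST) : StCORE := by
  classical
  intro E _ A h n x par K U θ t cut top c hC hA hc0 hc
  obtain ⟨a, N, hN, ha⟩ := hCHO A h n x par K U θ t cut top hC
  have hG := hGEO A h n x par K U θ t cut top hC
  have hP := hPNE A h n x par K U θ t cut top a hC (fun i h1 h2 h3 => (ha i h1 h2 h3).2.2)
  have hpos : ∀ v, 0 < h v := by
    obtain ⟨δ, hδ, h1⟩ := hC.sc.pos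
    exact fun v => hδ.trans_le (h1 v)
  have htop : ∀ i ≤ n, top i ≤ i ∧ top (top i) = top i := fun i hi => ⟨(hG i hi).1, (hG i hi).2.1⟩
  -- the pieces
  obtain ⟨P, hPm⟩ : ∃ P : ℕ → Finset E, ∀ j p, p ∈ P j ↔ p ∈ A ∧
      ((∃ i ≤ n, top i = j ∧ x i = p) ∨
      (∃ i, 1 ≤ i ∧ i ≤ n ∧ cut i ∧ top (par i) = j ∧ a i = p) ∨ (1 ≤ j ∧ cut j ∧ a j = p)) :=
    ⟨fun j => A.filter fun p => (∃ i ≤ n, top i = j ∧ x i = p) ∨
      (∃ i, 1 ≤ i ∧ i ≤ n ∧ cut i ∧ top (par i) = j ∧ a i = p) ∨ (1 ≤ j ∧ cut j ∧ a j = p),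
      fun j p => mem_filter⟩
  have hPA : ∀ j, P j ⊆ A := fun j p hp => ((hPm j p).1 hp).1
  have hcase : ∀ j ≤ n, ∀ p ∈ P j, (∃ i ≤ n, top i = j ∧ x i = p) ∨ p ∈ N j := by
    intro j hj p hp
    rcases ((hPm j p).1 hp).2 with h1 | ⟨i, h1, h2, h3, h4, h5⟩ | ⟨h1, h2, h3⟩
    · exact Or.inl h1
    · right
      rw [← h5, ← h4]
      exact (ha i h1 h2 h3).1
    · right
      rw [← h3]
      exact (ha j h1 hj h2).2.1
  have hnear : ∀ j ≤ n, top j = j → ∀ p ∈ P j, dist p (x j) ≤ 2 * exp K * h (x j) := by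
    intro j hj hjt p hp
    rcases hcase j hj p hp with ⟨i, h1, h2, h3⟩ | h1
    · have h4 := (hG i h1).2.2.1
      rw [h2, h3] at h4
      have h5 := hpos (x j)
      have h6 : 0 < exp (K : ℝ) * h (x j) := by positivity
      calc dist p (x j) ≤ (exp K - 1) * h (x j) := h4
        _ ≤ 2 * exp K * h (x j) := by nlinarith
    · exact (hN j hj hjt).2.1 p h1
  have hsep0 : ∀ j ≤ n, ∀ p ∈ P j, ∀ q ∈ P j, p ≠ q → (∃ i ≤ n, top i = j ∧ x i = p) →
      exp (-2 * K) * h (x j) ≤ dist p q := by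
    intro j hj p hp q hq hpq h0
    obtain ⟨i, h1, h2, h3⟩ := h0
    have h4 := (hG i h1).2.2.2.2
    rw [h2, h3] at h4
    exact h4.trans (hC.sc.sep p (hPA j hp) q (hPA j hq) hpq)
  have hsep : ∀ j ≤ n, top j = j → ∀ p ∈ P j, ∀ q ∈ P j, p ≠ q →
      exp (-2 * K) * h (x j) ≤ dist p q := by
    intro j hj hjt p hp q hq hpq
    rcases hcase j hj p hp with h1 | h1
    · exact hsep0 j hj p hp q hq hpq h1
    · rcases hcase j hj q hq with h2 | h2
      · rw [dist_comm]
        exact hsep0 j hj q hq p hp hpq.symm h2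
      · exact (hN j hj hjt).2.2 p h1 q h2 hpq
  -- the bounds for the pieces
  obtain ⟨L, hL⟩ : ∃ L : ℕ → ℝ, ∀ j, L j =
      ∑ i ∈ (Icc 1 n).filter (fun i => ¬ cut i ∧ top i = j), dist (x (par i)) (x i) +
      ∑ i ∈ (Icc 1 n).filter (fun i => cut i ∧ top (par i) = j), 2 * h (x (par i)) +
      if 1 ≤ j ∧ cut j then dist (x (par j)) (x j) + 2 * h (x (par j)) else 0 :=
    ⟨_, fun j => rfl⟩
  have hL0 : ∀ j, 0 ≤ L j := by
    intro j
    rw [hL]
    have h1 : 0 ≤ ∑ i ∈ (Icc 1 n).filter (fun i => ¬ cut i ∧ top i = j),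
        dist (x (par i)) (x i) := sum_nonneg fun i _ => dist_nonneg
    have h2 : 0 ≤ ∑ i ∈ (Icc 1 n).filter (fun i => cut i ∧ top (par i) = j),
        2 * h (x (par i)) := sum_nonneg fun i _ => by
      have h3 := hpos (x (par i))
      linarith
    have h3 : 0 ≤ if 1 ≤ j ∧ cut j then dist (x (par j)) (x j) + 2 * h (x (par j)) else 0 := by
      split_ifs
      · have h4 := hpos (x (par j))
        have h5 : 0 ≤ dist (x (par j)) (x j) := dist_nonneg
        linarith
      · exact le_refl _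
    linarith
  have hbd : ∀ j ≤ n, top j = j → (P j).Nonempty → c * mstLen (P j) ≤ L j := by
    intro j hj hjt hne
    obtain ⟨V, l, hV, h1, h2, h3, h4⟩ := hP j hj hjt
    have h5 : P j ⊆ V := by
      intro p hp
      rcases ((hPm j p).1 hp).2 with ⟨i, k1, k2, k3⟩ | ⟨i, k1, k2, k3, k4, k5⟩ | ⟨k1, k2, k3⟩
      · rw [← k3]
        exact h1 i k1 k2
      · rw [← k5]
        exact h2 i k1 k2 k3 k4
      · rw [← k3]
        exact h3 k1 k2
    have h6 := hc (P j) hne (asp (hnear j hj hjt) (hsep j hj hjt)) V l hV h5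
    refine h6.trans ?_
    rw [hL]
    exact h4
  -- the lists
  have hlist : ∀ j, ∃ m : List (E × E), (∀ e ∈ m, e.1 ∈ P j ∧ e.2 ∈ P j) ∧
      NConn m (P j : Set E) ∧ (j ≤ n → top j = j → c * nlen dist m ≤ L j) := by
    intro j
    by_cases hne : (P j).Nonempty
    · obtain ⟨m, h1, h2, -, h4⟩ := hMST (P j) hne
      refine ⟨m, fun e he => ⟨(h1 e he).1, (h1 e he).2.1⟩, h2, fun hj hjt => ?_⟩
      rw [h4]
      exact hbd j hj hjt hne
    · refine ⟨[], by simp, ?_, fun _ _ => ?_⟩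
      · intro p hp
        exact absurd ⟨p, hp⟩ hne
      · have h1 : nlen dist ([] : List (E × E)) = 0 := by simp [nlen]
        rw [h1, mul_zero]
        exact hL0 j
  choose m hm1 hm2 hm3 using hlist
  obtain ⟨T, hT⟩ : ∃ T : Finset ℕ, T = (range (n + 1)).filter (fun j => top j = j) := ⟨_, rfl⟩
  have hTm : ∀ j, j ∈ T ↔ j ≤ n ∧ top j = j := by
    intro j
    rw [hT, mem_filter, mem_range]
    constructor
    · exact fun h => ⟨by omega, h.2⟩
    · exact fun h => ⟨by omega, h.2⟩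
  obtain ⟨M, hM⟩ : ∃ M : List (E × E), M = T.toList.flatMap m := ⟨_, rfl⟩
  have hMm : ∀ j ≤ n, top j = j → ∀ e ∈ m j, e ∈ M := by
    intro j hj hjt e he
    rw [hM, List.mem_flatMap]
    exact ⟨j, mem_toList.2 ((hTm j).2 ⟨hj, hjt⟩), he⟩
  have hMA : ∀ e ∈ M, e.1 ∈ A ∧ e.2 ∈ A := by
    intro e he
    rw [hM, List.mem_flatMap] at he
    obtain ⟨j, _, h2⟩ := he
    exact ⟨hPA j (hm1 j e h2).1, hPA j (hm1 j e h2).2⟩
  have hin : ∀ j ≤ n, top j = j → ∀ p ∈ P j, ∀ q ∈ P j,
      Relation.EqvGen (fun x y => (x, y) ∈ M) p q := by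
    intro j hj hjt p hp q hq
    exact conn_mono (hMm j hj hjt) (hm2 j p hp q hq)
  have hall : ∀ k ≤ n, ∀ j ≤ k, top j = j → ∀ j' ≤ k, top j' = j' → ∀ p ∈ P j, ∀ q ∈ P j',
      Relation.EqvGen (fun x y => (x, y) ∈ M) p q := by
    intro k
    induction k with
    | zero =>
      intro hk j hj hjt j' hj' hjt' p hp q hq
      have h1 : j = 0 := by omega
      have h2 : j' = 0 := by omega
      rw [h1] at hp hjt
      rw [h2] at hq
      exact hin 0 (by omega) hjt p hp q hq
    | succ k ih =>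
      intro hk
      have ih := ih (by omega)
      -- the new piece
      have hnew : ∀ j' ≤ k, top j' = j' → top (k + 1) = k + 1 → ∀ p ∈ P (k + 1), ∀ q ∈ P j',
          Relation.EqvGen (fun x y => (x, y) ∈ M) p q := by
        intro j' hj' hjt' ht p hp q hq
        have hpl := hC.par_lt (k + 1) (by omega) hk
        have hcut : cut (k + 1) := by
          by_contra hcut
          have h1 := hC.top2 (k + 1) (by omega) hk hcut
          have h2 := (htop (par (k + 1)) (by omega)).1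
          omega
        have h3 := ha (k + 1) (by omega) hk hcut
        have h4 := htop (par (k + 1)) (by omega)
        have h5 : top (par (k + 1)) ≤ k := by omega
        have hza : a (k + 1) ∈ A := (hN (k + 1) hk ht).1 h3.2.1
        have h6 : a (k + 1) ∈ P (k + 1) :=
          (hPm _ _).2 ⟨hza, Or.inr (Or.inr ⟨by omega, hcut, rfl⟩)⟩
        have h7 : a (k + 1) ∈ P (top (par (k + 1))) :=
          (hPm _ _).2 ⟨hza, Or.inr (Or.inl ⟨k + 1, by omega, hk, hcut, rfl, rfl⟩)⟩
        exact (hin (k + 1) hk ht p hp _ h6).trans _ _ _ (ih _ h5 h4.2 j' hj' hjt' _ h7 q hq)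
      intro j hj hjt j' hj' hjt' p hp q hq
      by_cases h1 : j ≤ k
      · by_cases h2 : j' ≤ k
        · exact ih j h1 hjt j' h2 hjt' p hp q hq
        · have h3 : j' = k + 1 := by omega
          rw [h3] at hq hjt'
          exact (hnew j h1 hjt hjt' q hq p hp).symm
      · have h3 : j = k + 1 := by omega
        rw [h3] at hp hjt
        by_cases h2 : j' ≤ k
        · exact hnew j' h2 hjt' hjt p hp q hq
        · have h4 : j' = k + 1 := by omega
          rw [h4] at hq
          exact hin (k + 1) hk hjt p hp q hq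
  have hconn : NConn M (A : Set E) := by
    intro p hp q hq
    obtain ⟨i, hi, hxi⟩ := hC.ter p hp
    obtain ⟨i', hi', hxi'⟩ := hC.ter q hq
    have h1 := htop i hi
    have h2 := htop i' hi'
    exact hall n (le_refl n) (top i) (by omega) h1.2 (top i') (by omega) h2.2 p
      ((hPm _ _).2 ⟨hp, Or.inl ⟨i, hi, rfl, hxi⟩⟩) q
      ((hPm _ _).2 ⟨hq, Or.inl ⟨i', hi', rfl, hxi'⟩⟩)
  have h1 := Pool.Agent.Helper77.GP.mstLen_le_list A hA M hMA hconn
  have h2 : nlen dist M = ∑ j ∈ T, nlen dist (m j) := by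
    rw [hM, nlen_flatMap, sum_map_toList]
  have h3 : c * mstLen A ≤ ∑ j ∈ T, L j := by
    calc c * mstLen A ≤ c * nlen dist M := mul_le_mul_of_nonneg_left h1 hc0
      _ = ∑ j ∈ T, c * nlen dist (m j) := by rw [h2, mul_sum]
      _ ≤ ∑ j ∈ T, L j := sum_le_sum fun j hj =>
          hm3 j ((hTm j).1 hj).1 ((hTm j).1 hj).2
  refine h3.trans ?_
  have h4 := sum_bound n par top cut (fun i => dist (x (par i)) (x i)) (fun i => h (x (par i)))
    (fun i => dist_nonneg) (fun i => (hpos _).le) hC.par_lt htop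
  rw [hT]
  refine le_trans (le_of_eq ?_) h4
  exact sum_congr rfl fun j _ => hL j

end Pool.Agent.Helper32.SG
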